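import Pool.Agent.Lib.MP_8a52c3_lc.XCMain

/-!
Explicit linear matroids (over every finite field, in particular binary matroids) whose base and
independence polytopes have exponential extension complexity, even approximately.
-/

open Pool.Agent.Lib.MP_8a52c3_lc.XC
open scoped Pointwise

/-- Let `F / K` be an extension of finite fields with `K`-basis `w`, and `t ^ 3 ≤ |F|`. Consider the
`K`-linear matroid on `F × F × Fin e` given by the vectors `monoVec w t`. Every set `P` lying between
its base polytope and `κ` times its independence polytope needs `exp (t / (2000 κ)) / (11 κ t ^ 2) - 1`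
inequalities in any extended formulation. -/
theorem Pool.Agent.Results.MP_8a52c3_lc.MatroidXC.result
    (K F : Type) [Field K] [Field F] [Fintype F] [Algebra K F]
    (e : ℕ) (w : Module.Basis (Fin e) K F) (t : ℕ) (ht : 1 ≤ t) (htF : t ^ 3 ≤ Fintype.card F)
    (κ : ℝ) (hκ : 1 ≤ κ) (P : Set (F × F × Fin e → ℝ)) (r : ℕ)
    (hB : basePolytope K (monoVec w t) ⊆ P) (hI : P ⊆ κ • indepPolytope K (monoVec w t))
    (hP : HasEF P r) :
    Real.exp (t / (2000 * κ)) ≤ 11 * κ * t ^ 2 * (r + 1) :=
  xc_lower w t ht htF κ hκ P r hB hI hP
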