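import Pool.Agent.Lib.MP_8a52c3_lc.OrcMain

open Pool.Agent.Lib.MP_8a52c3_lc.Orc

/-- An oracle relative to which all disjoint coNP pairs and all disjoint NP pairs are
P-separable, while TFNP has no many-one complete problem. -/
theorem Pool.Agent.Results.MP_8a52c3_lc.OracleSepTFNP.result : ∃ A : List Bool → Bool,
    (∀ B₀ B₁ : Set (List Bool), InNP A B₀ᶜ → InNP A B₁ᶜ → Disjoint B₀ B₁ → PSeparable A B₀ B₁) ∧
    (∀ B₀ B₁ : Set (List Bool), InNP A B₀ → InNP A B₁ → Disjoint B₀ B₁ → PSeparable A B₀ B₁) ∧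
    ¬ ∃ T, IsTFNP A T ∧ ∀ S, IsTFNP A S → Reduces A S T :=
  Pool.Agent.Lib.MP_8a52c3_lc.Orc.main
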