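import Pool.Agent.Lib.MP_8a52c3_lc.RNMain

/-!
Exact ReLU networks are polynomially as powerful as Boolean circuits for zero-one optimisation.
-/

open Pool.Agent.Lib.MP_8a52c3_lc.RN

/-- If a Boolean circuit with `s` gates outputs, for every integer weight vector with `120 n ^ 5 + 1`
bits per entry, a maximum weight member of a family `F ⊆ {0,1}^n`, then a ReLU network with
`(n + 2) ^ C (s + 1)` neurons computes `w ↦ max_{x ∈ F} w · x` exactly on all of `ℝ^n`. -/
theorem Pool.Agent.Results.MP_8a52c3_lc.ReluUniversal.result :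
    ∃ C : ℕ, ∀ (n s : ℕ) (F : Set (Fin n → Bool))
      (opt : (Fin n × Fin (120 * n ^ 5 + 1) → Bool) → Fin n → Bool),
      CircuitComputes s opt →
      (∀ a, opt a ∈ F ∧ ∀ y ∈ F,
        ∑ i, (if y i then weight a i else 0) ≤ ∑ i, (if opt a i then weight a i else 0)) →
      ReluComputes ((n + 2) ^ C * (s + 1)) fun w => ⨆ x : F, ∑ i, if x.1 i then w i else 0 :=
  ⟨598, relu_of_circuit⟩
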