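import Pool.Agent.Lib.MP_8a52c3_lc.VSMain

open Pool.Agent.Lib.MP_8a52c3_lc.VS

/-- Variable space and resolution depth are polynomially related up to a factor `log n`. -/
theorem Pool.Agent.Results.MP_8a52c3_lc.VarSpaceDepth.result
    (n s : ℕ) (F : Set (Finset (Fin n × Bool))) (h : VarSpaceRef F s) :
    Res F (16 * s ^ 3 * (Nat.log 2 n + 1)) ∅ :=
  main F s h
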