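import Pool.Agent.Lib.MP_8a52c3_lc.VXGap

/-!
Exponential gap between extension complexity and virtual extension complexity: a Minkowski summand
of a polytope can have exponentially larger extension complexity than the sum and the other summand.
-/

open Pool.Agent.Lib.MP_8a52c3_lc.XC
open scoped Pointwise

/-- For all large `n` there are a binary matroid on `n` elements, with base polytope `P ⊆ ℝ^n`, and a
nonempty bounded set `Q ⊆ ℝ^n` such that `Q` and `P + Q` have extended formulations with `32 n ^ 4`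
inequalities while every extended formulation of `P` has at least `2 ^ (n ^ (1 / 7))` inequalities. -/
theorem Pool.Agent.Results.MP_8a52c3_lc.VirtualXCGap.result :
    ∃ n₀ : ℕ, ∀ n ≥ n₀, ∃ (v : Fin n → Fin n → ZMod 2) (Q : Set (Fin n → ℝ)),
      Q.Nonempty ∧ Bornology.IsBounded Q ∧ HasEF Q (32 * n ^ 4) ∧
      HasEF (basePolytope (ZMod 2) v + Q) (32 * n ^ 4) ∧
      ∀ r : ℕ, HasEF (basePolytope (ZMod 2) v) r → (2 : ℝ) ^ ((n : ℝ) ^ (1 / 7 : ℝ)) ≤ r :=
  ⟨64 ^ 120 * 360, xc_vxc_gap⟩
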